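import Pool.Agent.TH912.LG.Upper

set_option autoImplicit false

/-! Moves inside one ball of radius `O(log n / ε)` and the number of violated constraints as
potential: every local optimum satisfies almost as many constraints as any labelling. -/

namespace Pool.Agent.V11231.ULS

open Finset
open Pool.Agent.TH912.LS (ball mem_ball ball_self ball_symm ball_trans ball_mono ball_adj gb gb_sub
  gb_mono gb_ball gb_adj v_mem_gb)
open Pool.Agent.TH912.LG

variable {Q V : Type} [Fintype V]

open Classical in
theorem upper (X : Game Q V) (L σ : V → Q) (ε : ℝ) (hε : 0 < ε)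
    (N t : ℕ) (hN : ((CS X).card : ℝ) ≤ (1 + ε) ^ N) (hN1 : 1 ≤ N) (ht : N ≤ t)
    (hσ : ∀ σ', ¬ Step (violCost Q) 1 t X σ σ') :
    ((VS X σ).card : ℝ) ≤ (VS X L).card + 3 * ε * numCon X := by
  obtain ⟨cl, h1, h2⟩ := clustersE X ε hε N hN hN1 univ
  have h3 : ins X univ = CS X := by
    ext e
    simp [ins]
  rw [h3] at h2
  simp only [mem_univ, true_and] at h2
  set cut : Finset (V × V) := (CS X).filter fun e => cl e.1 ≠ cl e.2 with hcut
  have key : ∀ c : V, ((VS X σ).filter fun e => cl e.1 = c ∧ cl e.2 = c).card ≤
      ((VS X L).filter fun e => cl e.1 = c ∧ cl e.2 = c).card +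
      ((cut.filter fun e => cl e.1 = c).card + (cut.filter fun e => cl e.2 = c).card) := by
    intro c
    let σ' : V → Q := fun x => if cl x = c then L x else σ x
    have hle : (violCost Q).total X σ ≤ (violCost Q).total X σ' := by
      by_contra hlt
      push Not at hlt
      refine hσ σ' ⟨⟨{c}, by simp, ?_⟩, hlt⟩
      intro v hv
      refine ⟨c, by simp, ?_⟩
      have hvc : cl v = c := by
        by_contra h
        exact hv (if_neg h)
      have h4 := h1 v (mem_univ _)
      rw [hvc] at h4
      exact ball_mono h4 ht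
    rw [violCost_total, violCost_total] at hle
    have hle' : (VS X σ).card ≤ (VS X σ').card := by exact_mod_cast hle
    have h4 : VS X σ' ⊆ (((VS X σ).filter fun e => cl e.1 ≠ c ∧ cl e.2 ≠ c) ∪
        ((VS X L).filter fun e => cl e.1 = c ∧ cl e.2 = c)) ∪
        ((cut.filter fun e => cl e.1 = c) ∪ (cut.filter fun e => cl e.2 = c)) := by
      intro e he
      obtain ⟨π, hπ, hne⟩ := (mem_filter.mp he).2
      have heC : e ∈ CS X := (mem_CS X).mpr (by rw [hπ]; simp)
      by_cases a : cl e.1 = c <;> by_cases b : cl e.2 = c
      · refine mem_union_left _ (mem_union_right _ (mem_filter.mpr ⟨?_, a, b⟩))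
        refine mem_filter.mpr ⟨mem_univ _, π, hπ, ?_⟩
        simp only [σ', if_pos a, if_pos b] at hne
        exact hne
      · refine mem_union_right _ (mem_union_left _ (mem_filter.mpr ⟨?_, a⟩))
        refine mem_filter.mpr ⟨heC, ?_⟩
        rw [a]
        exact Ne.symm b
      · refine mem_union_right _ (mem_union_right _ (mem_filter.mpr ⟨?_, b⟩))
        refine mem_filter.mpr ⟨heC, ?_⟩
        rw [b]
        exact a
      · refine mem_union_left _ (mem_union_left _ (mem_filter.mpr ⟨?_, a, b⟩))
        refine mem_filter.mpr ⟨mem_univ _, π, hπ, ?_⟩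
        simp only [σ', if_neg a, if_neg b] at hne
        exact hne
    have h5 := (card_le_card h4).trans ((card_union_le _ _).trans
      (Nat.add_le_add (card_union_le _ _) (card_union_le _ _)))
    have h6 : ((VS X σ).filter fun e => cl e.1 = c ∧ cl e.2 = c).card +
        ((VS X σ).filter fun e => cl e.1 ≠ c ∧ cl e.2 ≠ c).card ≤ (VS X σ).card := by
      rw [← card_union_of_disjoint]
      · exact card_le_card (union_subset (filter_subset _ _) (filter_subset _ _))
      · rw [disjoint_left]
        intro e he he'
        exact (mem_filter.mp he').2.1 (mem_filter.mp he).2.1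
    omega
  have hfib : ∀ W : Finset (V × V), (W.filter fun e => cl e.1 = cl e.2).card =
      ∑ c : V, (W.filter fun e => cl e.1 = c ∧ cl e.2 = c).card := by
    intro W
    rw [card_eq_sum_card_fiberwise (f := fun e : V × V => cl e.1) (t := univ) (fun x _ => mem_univ _)]
    refine sum_congr rfl fun c _ => ?_
    rw [filter_filter]
    congr 1
    apply filter_congr
    intro e _
    constructor
    · rintro ⟨a, b⟩
      exact ⟨b, by rw [← a, b]⟩
    · rintro ⟨a, b⟩
      exact ⟨by rw [a, b], a⟩
  have hsum : ((VS X σ).filter fun e => cl e.1 = cl e.2).card ≤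
      ((VS X L).filter fun e => cl e.1 = cl e.2).card + 2 * cut.card := by
    have e2 : cut.card = ∑ c : V, (cut.filter fun e => cl e.1 = c).card :=
      card_eq_sum_card_fiberwise (f := fun e : V × V => cl e.1) (t := univ) (fun x _ => mem_univ _)
    have e3 : cut.card = ∑ c : V, (cut.filter fun e => cl e.2 = c).card :=
      card_eq_sum_card_fiberwise (f := fun e : V × V => cl e.2) (t := univ) (fun x _ => mem_univ _)
    calc ((VS X σ).filter fun e => cl e.1 = cl e.2).card
        = ∑ c : V, ((VS X σ).filter fun e => cl e.1 = c ∧ cl e.2 = c).card := hfib _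
      _ ≤ ∑ c : V, (((VS X L).filter fun e => cl e.1 = c ∧ cl e.2 = c).card +
          ((cut.filter fun e => cl e.1 = c).card +
            (cut.filter fun e => cl e.2 = c).card)) := sum_le_sum fun c _ => key c
      _ = ((VS X L).filter fun e => cl e.1 = cl e.2).card + (cut.card + cut.card) := by
          rw [sum_add_distrib, sum_add_distrib, ← e2, ← e3, ← hfib]
      _ = _ := by ring
  have hrest : ((VS X σ).filter fun e => ¬ cl e.1 = cl e.2).card ≤ cut.card := by
    apply card_le_card
    intro e he
    obtain ⟨he, hne⟩ := mem_filter.mp he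
    obtain ⟨π, hπ, _⟩ := (mem_filter.mp he).2
    exact mem_filter.mpr ⟨(mem_CS X).mpr (by rw [hπ]; simp), hne⟩
  have hall := card_filter_add_card_filter_not (s := VS X σ) (fun e : V × V => cl e.1 = cl e.2)
  have hLle := card_filter_le (VS X L) (fun e : V × V => cl e.1 = cl e.2)
  have hfin : (VS X σ).card ≤ (VS X L).card + 3 * cut.card := by omega
  have hfinR : ((VS X σ).card : ℝ) ≤ (VS X L).card + 3 * cut.card := by exact_mod_cast hfin
  rw [numCon_eq]
  have h2' : (cut.card : ℝ) ≤ ε * (CS X).card := h2
  linarith

end Pool.Agent.V11231.ULS
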