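import Pool.Agent.TH912.LG.Cover
import Pool.Agent.TH912.LG.Upper
import Pool.Agent.TH912.LG.Lower

set_option autoImplicit false

/-! Cyclic covers of unique games. -/

namespace Pool.Agent.V11231.ULS

open Finset
open Pool.Agent.TH912.LS (ball mem_ball ball_self ball_symm ball_trans ball_mono ball_adj dc)
open Pool.Agent.W179.Erdos (FCyc)
open Pool.Agent.TH912.LG (Game Satisfiable Far lift_cyc dc_cyc numCon numSat LocalCost Step IsAut)

/-- Unique game: all constraints go from left to right and every constraint map is bijective. -/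
def UniqueGame {Q V : Type} (X : Game Q V) : Prop :=
  (∀ u v, X.con u v ≠ none → X.side u = true ∧ X.side v = false) ∧
  ∀ u v π, X.con u v = some π → Function.Bijective π

section cover

variable {U : Type} {p : ℕ}

/-- the constraint maps: `x ↦ x + g` -/
def cmap (g : ZMod p) : ZMod p → ZMod p := fun a => a + g

open Classical in
/-- the cyclic cover of the bipartite game on the double cover of `G` with shifts `g` -/
noncomputable def cg (G : SimpleGraph U) (g : U × U → ZMod p) :
    Game (ZMod p) ((U × Bool) × ZMod p) where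
  side x := x.1.2
  con x y := if x.1.2 = true ∧ y.1.2 = false ∧ G.Adj x.1.1 y.1.1 ∧
      y.2 = x.2 + g (x.1.1, y.1.1) then
    some (cmap (g (x.1.1, y.1.1))) else none

variable (G : SimpleGraph U) (g : U × U → ZMod p)

theorem con_ne {x y : (U × Bool) × ZMod p} :
    (cg G g).con x y ≠ none ↔ x.1.2 = true ∧ y.1.2 = false ∧ G.Adj x.1.1 y.1.1 ∧
      y.2 = x.2 + g (x.1.1, y.1.1) := by
  unfold cg
  dsimp only
  split_ifs with h
  · exact ⟨fun _ => h, fun _ => by simp⟩
  · exact ⟨fun h' => absurd rfl h', fun h' => absurd h' h⟩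

theorem con_some {x y : (U × Bool) × ZMod p} {π : ZMod p → ZMod p} :
    (cg G g).con x y = some π ↔ (x.1.2 = true ∧ y.1.2 = false ∧ G.Adj x.1.1 y.1.1 ∧
      y.2 = x.2 + g (x.1.1, y.1.1)) ∧ cmap (g (x.1.1, y.1.1)) = π := by
  unfold cg
  dsimp only
  split_ifs with h
  · simp only [Option.some.injEq]
    exact ⟨fun h' => ⟨h, h'⟩, fun h' => h'.2⟩
  · simp only [reduceCtorEq, false_iff]
    exact fun h' => h h'.1

theorem gr_adj {x y : (U × Bool) × ZMod p} (h : (cg G g).gr.Adj x y) :
    (dc G).Adj x.1 y.1 := by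
  obtain ⟨_, h | h⟩ := h
  · rw [con_ne] at h
    exact ⟨h.2.2.1, by rw [h.1, h.2.1]; simp⟩
  · rw [con_ne] at h
    exact ⟨h.2.2.1.symm, by rw [h.1, h.2.1]; simp⟩

theorem gr_back {x y z : (U × Bool) × ZMod p} (h : (cg G g).gr.Adj x y)
    (h' : (cg G g).gr.Adj y z) (hz : z.1 = x.1) : z = x := by
  obtain ⟨_, h⟩ := h
  obtain ⟨_, h'⟩ := h'
  rw [con_ne, con_ne] at h h'
  refine Prod.ext hz ?_
  rcases h with h | h <;> rcases h' with h' | h'
  · have := h.2.1
    rw [h'.1] at this
    exact absurd this (by simp)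
  · have e1 := h.2.2.2
    have e2 := h'.2.2.2
    rw [hz, e1] at e2
    exact (add_right_cancel e2).symm
  · have e1 := h.2.2.2
    have e2 := h'.2.2.2
    rw [hz] at e2
    rw [e1, e2]
  · have := h.1
    rw [h'.2.1] at this
    exact absurd this (by simp)

theorem cg_far {L : ℕ} (hL : ∀ l φ, FCyc G l φ → L < l) :
    Far (cg G g) (fun (a : ZMod p) x => (x.1, x.2 + a)) L where
  h0 := fun x => by simp
  hadd := fun a b x => by
    ext
    · rfl
    · rfl
    · show x.2 + (a + b) = x.2 + b + a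
      ring
  hside := fun a v => rfl
  hcon := by
    intro a u v
    have h1 : (v.2 + a = u.2 + a + g (u.1.1, v.1.1)) ↔ (v.2 = u.2 + g (u.1.1, v.1.1)) := by
      constructor
      · intro h
        have : v.2 + a = (u.2 + g (u.1.1, v.1.1)) + a := by rw [h]; ring
        exact add_right_cancel this
      · intro h
        rw [h]; ring
    unfold cg
    dsimp only
    by_cases hc : u.1.2 = true ∧ v.1.2 = false ∧ G.Adj u.1.1 v.1.1 ∧ v.2 = u.2 + g (u.1.1, v.1.1)
    · rw [if_pos hc, if_pos ⟨hc.1, hc.2.1, hc.2.2.1, h1.mpr hc.2.2.2⟩]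
    · rw [if_neg hc, if_neg fun h => hc ⟨h.1, h.2.1, h.2.2.1, h1.mp h.2.2.2⟩]
  far := by
    rintro a x ⟨w, hw⟩
    by_contra ha
    obtain ⟨l, h, hl, hc⟩ := lift_cyc (D := dc G) (H := (cg G g).gr) Prod.fst
      (fun s s' hs => gr_adj G g hs) (fun s s' s'' h1 h2 h3 => gr_back G g h1 h2 h3)
      w.length (fun i => w.getVert i) (fun i hi => w.adj_getVert_succ hi)
      (by simp) (by
        simp only [SimpleGraph.Walk.getVert_length, SimpleGraph.Walk.getVert_zero]
        intro h
        have h2 : x.2 + a = x.2 := congrArg Prod.snd h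
        exact ha (by simpa using h2))
    obtain ⟨l', h', hl', hc'⟩ := dc_cyc hc
    have := hL l' h' hc'
    omega

theorem cg_satisfiable : Satisfiable (cg G g) := by
  refine ⟨fun x => x.2, ?_⟩
  intro x y π h
  rw [con_some] at h
  obtain ⟨⟨_, _, _, h1⟩, rfl⟩ := h
  show cmap (g (x.1.1, y.1.1)) x.2 = y.2
  rw [h1]
  rfl

theorem cg_unique : UniqueGame (cg G g) := by
  refine ⟨?_, ?_⟩
  · intro x y h
    rw [con_ne] at h
    exact ⟨h.1, h.2.1⟩
  · intro x y π h
    rw [con_some] at h
    obtain ⟨_, rfl⟩ := h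
    exact (Equiv.addRight (g (x.1.1, y.1.1))).bijective

theorem cg_degree {Δ : ℕ} (hdeg : ∀ u, (G.neighborSet u).ncard ≤ Δ) [Finite U]
    (x : (U × Bool) × ZMod p) : ((cg G g).gr.neighborSet x).ncard ≤ Δ := by
  refine le_trans (b := (G.neighborSet x.1.1).ncard) ?_ (hdeg _)
  refine Set.ncard_le_ncard_of_injOn (fun y => y.1.1) ?_ ?_ (Set.toFinite _)
  · intro y hy
    exact (gr_adj G g hy).1
  · intro y hy z hz hyz
    have hyz' : y.1.1 = z.1.1 := hyz
    have e1 := gr_adj G g hy
    have e2 := gr_adj G g hz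
    have hs : y.1.2 = z.1.2 := by
      have a1 := e1.2
      have a2 := e2.2
      revert a1 a2
      cases x.1.2 <;> cases y.1.2 <;> cases z.1.2 <;> simp
    have h1 : z.1 = y.1 := Prod.ext hyz'.symm hs.symm
    exact (gr_back G g (SimpleGraph.Adj.symm hy) hz h1).symm

end cover

end Pool.Agent.V11231.ULS
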